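import Pool.Agent.W737.SB.Defs

/-!
# SB-GOOD: data at a point whose frame image is very close to p
-/

set_option autoImplicit false

open Metric Set Filter Topology

namespace Pool.Agent.W505.SB

open Pool.Agent.W737.SB

variable {n : ℕ}

/-! ## height of shifted points -/

theorem ishift_ge {ρ : V n → ℝ} {p ν : V n} {h : V n → ℝ} {r₀ C : ℝ} (H : Ht ρ p ν h r₀ C)
    {w : V n} {s : ℝ} (hw : ‖w - p‖ + |s| < r₀) :
    w + (Complex.I * (s : ℂ)) • ν ∈ ball p r₀ ∧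
      h w - C * |s| * (‖w - p‖ + |s|) ≤ h (w + (Complex.I * (s : ℂ)) • ν) := by
  have h0 : w ∈ ball p r₀ := by
    rw [mem_ball_iff_norm]
    linarith [abs_nonneg s]
  have h1 : w + (Complex.I * (s : ℂ)) • ν ∈ ball p r₀ := by
    rw [mem_ball_iff_norm]
    have : w + (Complex.I * (s : ℂ)) • ν - p = (w - p) + (Complex.I * (s : ℂ)) • ν := by abel
    rw [this]
    refine (norm_add_le _ _).trans_lt ?_
    rw [norm_smul, H.hν, norm_mul, Complex.norm_I, Complex.norm_real, Real.norm_eq_abs]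
    linarith
  refine ⟨h1, ?_⟩
  have h2 := abs_le.1 (H.ishift w h0 s h1)
  linarith [h2.1]

theorem shift_ge {ρ : V n → ℝ} {p ν : V n} {h : V n → ℝ} {r₀ C : ℝ} (H : Ht ρ p ν h r₀ C)
    {w : V n} {t : ℂ} (hw : ‖w - p‖ + ‖t‖ < r₀) :
    w + t • ν ∈ ball p r₀ ∧
      h w - ‖t‖ * (1 + C * (‖w - p‖ + ‖t‖)) ≤ h (w + t • ν) := by
  have hre := Complex.abs_re_le_norm t
  have him := Complex.abs_im_le_norm t
  obtain ⟨h1, h2⟩ := ishift_ge H (w := w) (s := t.im) (by linarith)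
  have e : w + t • ν = (w + (Complex.I * (t.im : ℂ)) • ν) + (t.re : ℂ) • ν := by
    rw [add_assoc, ← add_smul]
    congr 2
    nth_rw 1 [← Complex.re_add_im t]
    ring
  have h3 : w + t • ν ∈ ball p r₀ := by
    rw [mem_ball_iff_norm]
    have : w + t • ν - p = (w - p) + t • ν := by abel
    rw [this]
    refine (norm_add_le _ _).trans_lt ?_
    rw [norm_smul, H.hν]
    linarith
  refine ⟨h3, ?_⟩
  have h4 := H.shift (w + (Complex.I * (t.im : ℂ)) • ν) h1 t.re (by rw [← e]; exact h3)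
  rw [e, h4]
  have h5 : C * |t.im| * (‖w - p‖ + |t.im|) ≤ C * ‖t‖ * (‖w - p‖ + ‖t‖) := by
    have hC := H.C0
    have := norm_nonneg (w - p)
    gcongr
  have h6 := le_abs_self t.re
  nlinarith

/-! ## Taylor remainder -/

theorem taylor2 {φ : ℂ → V n} {β : ℝ} (hβ : 0 < β) (hφ : DifferentiableOn ℂ φ (ball 0 β))
    (hb : ∀ t ∈ ball (0 : ℂ) β, ‖φ t‖ ≤ 1) {t : ℂ} (ht : ‖t‖ ≤ 9 / 10 * β) :
    ‖φ t - φ 0 - t • deriv φ 0‖ ≤ 4 * (‖t‖ / β) ^ 2 := by
  have h0 : ball (0 : ℂ) β ∈ 𝓝 (0 : ℂ) := ball_mem_nhds 0 hβ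
  have h1 : DifferentiableOn ℂ (dslope φ 0) (ball 0 β) :=
    (Complex.differentiableOn_dslope h0).2 hφ
  have h2 : DifferentiableOn ℂ (dslope (dslope φ 0) 0) (ball 0 β) :=
    (Complex.differentiableOn_dslope h0).2 h1
  have key : ∀ t : ℂ, t ^ 2 • dslope (dslope φ 0) 0 t = φ t - φ 0 - t • deriv φ 0 := by
    intro t
    by_cases ht0 : t = 0
    · subst ht0
      simp
    · rw [dslope_of_ne _ ht0, slope_def_module, dslope_same, dslope_of_ne _ ht0, slope_def_module,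
        sub_zero, smul_smul, smul_sub, smul_smul]
      have e1 : t ^ 2 * t⁻¹ * t⁻¹ = 1 := by field_simp
      have e2 : t ^ 2 * t⁻¹ = t := by field_simp
      rw [e1, e2, one_smul]
  have hr : 0 < 9 / 10 * β := by positivity
  have hsub : closedBall (0 : ℂ) (9 / 10 * β) ⊆ ball 0 β := closedBall_subset_ball (by linarith)
  have hd : DiffContOnCl ℂ (dslope (dslope φ 0) 0) (ball 0 (9 / 10 * β)) := by
    apply DifferentiableOn.diffContOnCl
    rw [closure_ball _ hr.ne']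
    exact h2.mono hsub
  have hD : ‖deriv φ 0‖ ≤ 1 / β := Pool.Agent.W737.SQ.cauchy_ball hβ hφ hb
  have hmax : ‖dslope (dslope φ 0) 0 t‖ ≤ 4 / β ^ 2 := by
    apply Complex.norm_le_of_forall_mem_frontier_norm_le isBounded_ball hd
    · intro z hz
      rw [frontier_ball _ hr.ne', mem_sphere_zero_iff_norm] at hz
      have hz0 : z ≠ 0 := by
        intro h
        rw [h, norm_zero] at hz
        linarith
      have hzb : z ∈ ball (0 : ℂ) β := by
        rw [mem_ball_zero_iff, hz]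
        linarith
      have k := congrArg norm (key z)
      rw [norm_smul, norm_pow, hz] at k
      have k2 : ‖φ z - φ 0 - z • deriv φ 0‖ ≤ 1 + 1 + 9 / 10 * β * (1 / β) := by
        refine (norm_sub_le _ _).trans (add_le_add ?_ ?_)
        · exact (norm_sub_le _ _).trans (add_le_add (hb z hzb) (hb 0 (mem_ball_self hβ)))
        · rw [norm_smul, hz]
          exact mul_le_mul_of_nonneg_left hD hr.le
      have k3 : 9 / 10 * β * (1 / β) = 9 / 10 := by field_simp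
      rw [k3] at k2
      rw [← k] at k2
      rw [le_div_iff₀ (by positivity)]
      nlinarith [norm_nonneg (dslope (dslope φ 0) 0 z), sq_nonneg β]
    · rw [closure_ball _ hr.ne', mem_closedBall_zero_iff]
      exact ht
  rw [← key t, norm_smul, norm_pow, div_pow]
  calc ‖t‖ ^ 2 * ‖dslope (dslope φ 0) 0 t‖ ≤ ‖t‖ ^ 2 * (4 / β ^ 2) :=
        mul_le_mul_of_nonneg_left hmax (by positivity)
    _ = 4 * (‖t‖ ^ 2 / β ^ 2) := by ring

/-- holomorphic function along the direction `ν` -/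
theorem line_facts {Ω : Set (V n)} (hΩ : IsOpen Ω) {F : V n → V n} (hF : DifferentiableOn ℂ F Ω)
    (hFm : MapsTo F Ω (ball 0 1)) {w ν : V n} {β : ℝ} (hβ : 0 < β)
    (hw : ∀ t : ℂ, ‖t‖ < β → w + t • ν ∈ Ω) :
    ‖fderiv ℂ F w ν‖ ≤ 1 / β ∧
      ∀ t : ℂ, ‖t‖ ≤ 9 / 10 * β → ‖F (w + t • ν) - F w - t • fderiv ℂ F w ν‖ ≤
        4 * (‖t‖ / β) ^ 2 := by
  have hψ : Differentiable ℂ (fun t : ℂ => w + t • ν) :=
    (differentiable_id.smul_const ν).const_add w
  have hmap : MapsTo (fun t : ℂ => w + t • ν) (ball 0 β) Ω := by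
    intro t ht
    rw [mem_ball_zero_iff] at ht
    exact hw t ht
  have hd0 : deriv (fun t : ℂ => w + t • ν) 0 = ν := by
    have : HasDerivAt (fun t : ℂ => w + t • ν) ((1 : ℂ) • ν) 0 :=
      ((hasDerivAt_id (0 : ℂ)).smul_const ν).const_add w
    simpa using this.deriv
  have hφ : DifferentiableOn ℂ (fun t : ℂ => F (w + t • ν)) (ball 0 β) :=
    hF.comp hψ.differentiableOn hmap
  have hb : ∀ t ∈ ball (0 : ℂ) β, ‖F (w + t • ν)‖ ≤ 1 := by
    intro t ht
    have := hFm (hmap ht)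
    rw [mem_ball_zero_iff] at this
    exact this.le
  have hder : deriv (fun t : ℂ => F (w + t • ν)) 0 = fderiv ℂ F w ν := by
    have := Pool.Agent.W737.SQ.fderiv_comp_disc hΩ hF hβ hψ.differentiableOn hmap
    rw [hd0] at this
    rw [this, zero_smul, add_zero]
  constructor
  · rw [← hder]
    exact Pool.Agent.W737.SQ.cauchy_ball hβ hφ hb
  · intro t ht
    have := taylor2 hβ hφ hb ht
    rw [hder] at this
    simpa using this

/-! ## Harnack along lines -/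

theorem log_ratio1 {R a : ℝ} (hR : 19 / 20 ≤ R) (hR1 : R ≤ 1) (ha : 3 / 5 ≤ a) (ha1 : a ≤ 9 / 10) :
    3 / 38 ≤ Real.log (R / a) / Real.log (R / (3 / 5)) := by
  have h1 : 1 / 19 ≤ Real.log (R / a) := by
    have h2 : 19 / 18 ≤ R / a := by
      rw [le_div_iff₀ (by linarith)]
      nlinarith
    have h3 : Real.log (19 / 18) ≤ Real.log (R / a) := Real.log_le_log (by norm_num) h2
    have h4 := Real.one_sub_inv_le_log_of_pos (show (0 : ℝ) < 19 / 18 by norm_num)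
    norm_num at h4
    linarith
  have h5 : Real.log (R / (3 / 5)) ≤ 2 / 3 := by
    have h6 := Real.log_le_sub_one_of_pos (show 0 < R / (3 / 5) by positivity)
    have h7 : R / (3 / 5) ≤ 5 / 3 := by
      rw [div_le_iff₀ (by norm_num)]
      linarith
    linarith
  have h8 : 0 < Real.log (R / (3 / 5)) := by
    apply Real.log_pos
    rw [lt_div_iff₀ (by norm_num)]
    linarith
  rw [le_div_iff₀ h8]
  linarith

theorem log_ratio2 {s a : ℝ} (hs : 0 < s) (hs1 : s ≤ 1 / 10) (ha : 3 / 5 ≤ a)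
    (ha1 : a ≤ 1 - s ^ 4) :
    3 / 4 * s ^ 4 ≤ Real.log ((1 - s ^ 4 / 2) / a) / Real.log ((1 - s ^ 4 / 2) / (3 / 5)) := by
  have hs4 : 0 < s ^ 4 := by positivity
  have hs41 : s ^ 4 ≤ 1 / 10 := by
    calc s ^ 4 ≤ (1 / 10) ^ 4 := by gcongr
      _ ≤ 1 / 10 := by norm_num
  have ha0 : 0 < a := by linarith
  have h1 : s ^ 4 / 2 ≤ Real.log ((1 - s ^ 4 / 2) / a) := by
    have h4 := Real.one_sub_inv_le_log_of_pos (show 0 < (1 - s ^ 4 / 2) / a by
      apply div_pos _ ha0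
      linarith)
    refine le_trans ?_ h4
    rw [inv_div, le_sub_comm, div_le_iff₀ (by linarith)]
    nlinarith
  have h5 : Real.log ((1 - s ^ 4 / 2) / (3 / 5)) ≤ 2 / 3 := by
    have h6 := Real.log_le_sub_one_of_pos (show 0 < (1 - s ^ 4 / 2) / (3 / 5) by
      apply div_pos _ (by norm_num)
      linarith)
    have h7 : (1 - s ^ 4 / 2) / (3 / 5) ≤ 5 / 3 := by
      rw [div_le_iff₀ (by norm_num)]
      linarith
    linarith
  have h8 : 0 < Real.log ((1 - s ^ 4 / 2) / (3 / 5)) := by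
    apply Real.log_pos
    rw [lt_div_iff₀ (by norm_num)]
    linarith
  rw [le_div_iff₀ h8]
  nlinarith


/-- the conclusion of `S_wh` -/
def WHc (p : V n) (h : V n → ℝ) (r₂ c : ℝ) : Prop :=
  ∀ (g : ℂ → V n) (r R β : ℝ), 0 < r → r < R →
      0 < β → DifferentiableOn ℂ g (ball 0 R) → MapsTo g (ball 0 R) (ball p r₂) →
      (∀ t ∈ ball (0 : ℂ) R, 0 < h (g t)) → (∀ t : ℂ, ‖t‖ = r → β ≤ h (g t)) →
      ∀ t ∈ ball (0 : ℂ) R, r ≤ ‖t‖ →
        c * β * (Real.log (R / ‖t‖) / Real.log (R / r)) ^ 2 ≤ h (g t)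

theorem harnack_line {Ω : Set (V n)} {ρ : V n → ℝ} {p ν : V n} {h : V n → ℝ} {r₀ C : ℝ}
    (H : Ht ρ p ν h r₀ C) (hΩ : Ω = {x | ρ x < 0}) {r₂ c : ℝ} (hr2 : r₂ ≤ r₀)
    (WH : WHc p h r₂ c) {f F : V n → V n} {z : V n} {s β : ℝ} (hfr : Fr Ω f F z)
    (hs : 0 < s) (hs1 : s ≤ 1 / 10) (hsm : s ^ 9 < r₂)
    (hf : ∀ x, ‖x‖ ≤ 1 - s ^ 4 / 2 → ‖f x - p‖ ≤ s ^ 9) (hβ : 0 < β)
    (hβm : ∀ x, ‖x‖ ≤ 3 / 5 → β ≤ h (f x)) {x : V n} (hx : 3 / 5 ≤ ‖x‖)
    (hx1 : ‖x‖ < 1 - s ^ 4 / 2) :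
    c * β * (Real.log ((1 - s ^ 4 / 2) / ‖x‖) / Real.log ((1 - s ^ 4 / 2) / (3 / 5))) ^ 2 ≤
      h (f x) := by
  have hs4 : 0 < s ^ 4 := by positivity
  have hs41 : s ^ 4 ≤ 1 / 10 := by
    calc s ^ 4 ≤ (1 / 10) ^ 4 := by gcongr
      _ ≤ 1 / 10 := by norm_num
  have hx0 : 0 < ‖x‖ := by linarith
  set u : V n := ((‖x‖ : ℂ))⁻¹ • x with hu
  have hun : ‖u‖ = 1 := by
    rw [hu, norm_smul, norm_inv, Complex.norm_real, norm_norm, inv_mul_cancel₀ hx0.ne']
  have hxu : ((‖x‖ : ℝ) : ℂ) • u = x := by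
    rw [hu, smul_smul, mul_inv_cancel₀, one_smul]
    exact_mod_cast hx0.ne'
  have hnorm : ∀ t : ℂ, ‖t • u‖ = ‖t‖ := fun t => by rw [norm_smul, hun, mul_one]
  have hd : DifferentiableOn ℂ (fun t : ℂ => f (t • u)) (ball 0 (1 - s ^ 4 / 2)) := by
    have h1 : DifferentiableOn ℂ (fun t : ℂ => t • u) (ball 0 (1 - s ^ 4 / 2)) :=
      (differentiable_id.smul_const u).differentiableOn
    apply hfr.hf.comp h1
    intro t ht
    rw [mem_ball_zero_iff] at ht ⊢
    rw [hnorm]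
    linarith
  have hmem : ∀ t ∈ ball (0 : ℂ) (1 - s ^ 4 / 2), f (t • u) ∈ ball p r₂ := by
    intro t ht
    rw [mem_ball_zero_iff] at ht
    rw [mem_ball_iff_norm]
    exact (hf (t • u) (by rw [hnorm]; exact ht.le)).trans_lt hsm
  have hpos : ∀ t ∈ ball (0 : ℂ) (1 - s ^ 4 / 2), 0 < h (f (t • u)) := by
    intro t ht
    have h1 := hmem t ht
    have h2 : f (t • u) ∈ ball p r₀ := ball_subset_ball hr2 h1
    rw [← H.sign _ h2]
    rw [mem_ball_zero_iff] at ht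
    have h3 : f (t • u) ∈ Ω := hfr.hfm (by
      rw [mem_ball_zero_iff, hnorm]
      linarith)
    rw [hΩ] at h3
    exact h3
  have hres := WH (fun t => f (t • u)) (3 / 5) (1 - s ^ 4 / 2) β (by norm_num) (by linarith) hβ hd
    hmem hpos (fun t ht => hβm _ (by rw [hnorm, ht])) ((‖x‖ : ℝ) : ℂ)
    (by rw [mem_ball_zero_iff, Complex.norm_real, norm_norm]; exact hx1)
    (by rw [Complex.norm_real, norm_norm]; exact hx)
  rw [Complex.norm_real, norm_norm] at hres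
  simp only [hxu] at hres
  exact hres

theorem harnack {Ω : Set (V n)} {ρ : V n → ℝ} {p ν : V n} {h : V n → ℝ} {r₀ C : ℝ}
    (H : Ht ρ p ν h r₀ C) (hΩ : Ω = {x | ρ x < 0}) {r₂ c : ℝ} (hr2 : r₂ ≤ r₀) (hc : 0 < c)
    (WH : WHc p h r₂ c) {f F : V n → V n} {z : V n} {s β : ℝ} (hfr : Fr Ω f F z)
    (hs : 0 < s) (hs1 : s ≤ 1 / 10) (hsm : s ^ 9 < r₂)
    (hf : ∀ x, ‖x‖ ≤ 1 - s ^ 4 / 2 → ‖f x - p‖ ≤ s ^ 9) (hβ : 0 < β)
    (hβm : ∀ x, ‖x‖ ≤ 3 / 5 → β ≤ h (f x)) :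
    (∀ x, ‖x‖ ≤ 9 / 10 → min 1 (c * (3 / 38) ^ 2) * β ≤ h (f x)) ∧
    (∀ x, ‖x‖ ≤ 1 - s ^ 4 → min 1 (c * (9 / 16)) * s ^ 8 * β ≤ h (f x)) := by
  have hs4 : 0 < s ^ 4 := by positivity
  have hs41 : s ^ 4 ≤ 1 / 10 := by
    calc s ^ 4 ≤ (1 / 10) ^ 4 := by gcongr
      _ ≤ 1 / 10 := by norm_num
  constructor
  · intro x hx
    rcases le_total ‖x‖ (3 / 5) with hx1 | hx1
    · refine le_trans ?_ (hβm x hx1)
      exact mul_le_of_le_one_left hβ.le (min_le_left _ _)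
    · have h1 := harnack_line H hΩ hr2 WH hfr hs hs1 hsm hf hβ hβm hx1 (by linarith)
      have h2 := log_ratio1 (R := 1 - s ^ 4 / 2) (by linarith) (by linarith) hx1 hx
      refine le_trans ?_ h1
      calc min 1 (c * (3 / 38) ^ 2) * β ≤ c * (3 / 38) ^ 2 * β :=
            mul_le_mul_of_nonneg_right (min_le_right _ _) hβ.le
        _ = c * β * (3 / 38) ^ 2 := by ring
        _ ≤ _ := by
            apply mul_le_mul_of_nonneg_left _ (by positivity)
            exact pow_le_pow_left₀ (by norm_num) h2 2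
  · intro x hx
    rcases le_total ‖x‖ (3 / 5) with hx1 | hx1
    · refine le_trans ?_ (hβm x hx1)
      apply mul_le_of_le_one_left hβ.le
      have h8 : s ^ 8 ≤ 1 := pow_le_one₀ hs.le (by linarith)
      exact mul_le_one₀ (min_le_left _ _) (by positivity) h8
    · have h1 := harnack_line H hΩ hr2 WH hfr hs hs1 hsm hf hβ hβm hx1 (by linarith)
      have h2 := log_ratio2 hs hs1 hx1 hx
      refine le_trans ?_ h1
      calc min 1 (c * (9 / 16)) * s ^ 8 * β ≤ c * (9 / 16) * s ^ 8 * β := by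
            apply mul_le_mul_of_nonneg_right _ hβ.le
            exact mul_le_mul_of_nonneg_right (min_le_right _ _) (by positivity)
        _ = c * β * (3 / 4 * s ^ 4) ^ 2 := by ring
        _ ≤ _ := by
            apply mul_le_mul_of_nonneg_left _ (by positivity)
            exact pow_le_pow_left₀ (by positivity) h2 2

/-- a small parameter -/
theorem small_param {ι : Type} [Finite ι] (k m : ι → ℝ) (hm : ∀ i, 0 < m i) (b : ℝ) (hb : 0 < b) :
    ∃ s₁ : ℝ, 0 < s₁ ∧ s₁ ≤ b ∧ ∀ i, |k i| * s₁ < m i := by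
  have h1 : ∀ᶠ s : ℝ in 𝓝[>] (0 : ℝ), ∀ i, |k i| * s < m i := by
    rw [Filter.eventually_all]
    intro i
    have hc : Tendsto (fun s : ℝ => |k i| * s) (𝓝[>] (0 : ℝ)) (𝓝 0) := by
      have : Tendsto (fun s : ℝ => |k i| * s) (𝓝 0) (𝓝 (|k i| * 0)) :=
        (continuous_const.mul continuous_id).tendsto 0
      rw [mul_zero] at this
      exact this.mono_left nhdsWithin_le_nhds
    exact hc.eventually (gt_mem_nhds (hm i))
  have h2 : ∀ᶠ s : ℝ in 𝓝[>] (0 : ℝ), s ≤ b := by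
    have : ∀ᶠ s : ℝ in 𝓝 (0 : ℝ), s < b := gt_mem_nhds hb
    exact (this.filter_mono nhdsWithin_le_nhds).mono fun s hs => hs.le
  obtain ⟨s, ⟨h3, h4⟩, h5⟩ := ((h1.and h2).and self_mem_nhdsWithin).exists
  exact ⟨s, h5, h4, h3⟩

theorem qf_le (b : V n) (A : V n →L[ℂ] V n) {x : V n} (hx : ‖x‖ ≤ 1) :
    ‖qf b A x‖ ≤ 2 * ‖b‖ + ‖A‖ := by
  unfold qf
  have h1 : ‖A x‖ ≤ ‖A‖ := by
    refine (A.le_opNorm x).trans ?_
    exact mul_le_of_le_one_right (norm_nonneg _) hx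
  have h2 : ‖(inner ℂ b x : ℂ) • x‖ ≤ ‖b‖ := by
    rw [norm_smul]
    calc ‖(inner ℂ b x : ℂ)‖ * ‖x‖ ≤ (‖b‖ * ‖x‖) * ‖x‖ :=
          mul_le_mul_of_nonneg_right (norm_inner_le_norm b x) (norm_nonneg _)
      _ ≤ (‖b‖ * 1) * 1 := by gcongr
      _ = ‖b‖ := by ring
  calc ‖b + A x + (inner ℂ b x : ℂ) • x‖ ≤ ‖b + A x‖ + ‖(inner ℂ b x : ℂ) • x‖ := norm_add_le _ _
    _ ≤ ‖b‖ + ‖A x‖ + ‖b‖ := add_le_add (norm_add_le _ _) h2
    _ ≤ _ := by linarith

theorem t_good (h1 : S_nk) (h2 : S_psc) (h3 : S_wh) (h4 : S_bet) : S_good := by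
  intro n Ω ρ p ν h r₀ C hdat H
  obtain ⟨r₁, C₁, hr1, hr10, hC1, hpsc⟩ := h2 n Ω ρ p ν h r₀ C hdat H
  obtain ⟨r₂, c, hr2, hr21, hc, WH⟩ := h3 n p h r₁ C₁ hr1 hC1
    (H.smooth.mono (ball_subset_ball hr10)) hpsc
  obtain ⟨ε₀, hε0, hbet⟩ := h4 n Ω ρ p ν h r₀ C hdat H
  obtain ⟨Cn, s0, hCn, hs0, hs01, hnk⟩ := h1 n
  have hC := H.C0
  set c2 : ℝ := min 1 (c * (3 / 38) ^ 2) with hc2
  set c' : ℝ := min 1 (c * (9 / 16)) with hc'
  have hc2p : 0 < c2 := by
    rw [hc2]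
    positivity
  have hc21 : c2 ≤ 1 := min_le_left _ _
  have hc'p : 0 < c' := by
    rw [hc']
    positivity
  -- small parameter
  obtain ⟨s₁, hs1p, hs1b, hs1k⟩ := small_param (ι := Fin 5)
    ![1 + C, 1, C * (1 + C), C * (1 + C), Cn * 4 / c2]
    ![r₂, ε₀, 1 / 100, c', 1 / 10] (by
      intro i
      fin_cases i
      · exact hr2
      · exact hε0
      · norm_num
      · exact hc'p
      · norm_num) s0 hs0
  have k0 : (1 + C) * s₁ < r₂ := by
    have := hs1k 0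
    simp only [Matrix.cons_val_zero] at this
    rwa [abs_of_pos (by positivity)] at this
  have k1 : s₁ < ε₀ := by
    have := hs1k 1
    simp only [Matrix.cons_val_one, Matrix.cons_val_zero] at this
    rwa [abs_one, one_mul] at this
  have k2 : C * (1 + C) * s₁ < 1 / 100 := by
    have := hs1k 2
    simp only [Matrix.cons_val] at this
    rwa [abs_of_pos (by positivity)] at this
  have k3 : C * (1 + C) * s₁ < c' := by
    have := hs1k 3
    simp only [Matrix.cons_val] at this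
    rwa [abs_of_pos (by positivity)] at this
  have k4 : Cn * 4 / c2 * s₁ < 1 / 10 := by
    have := hs1k 4
    simp only [Matrix.cons_val] at this
    rwa [abs_of_pos (by positivity)] at this
  refine ⟨s₁, c2, 2 / c2 + Cn * 4 / c2, hs1p, by linarith, hc2p, by positivity, ?_⟩
  intro s hs hss f F z hfr hfx
  have hΩo : IsOpen Ω := by
    rw [hdat.eq]
    exact isOpen_lt hdat.smooth.continuous continuous_const
  have hs10 : s ≤ 1 / 10 := by linarith
  have hs1' : s ≤ 1 := by linarith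
  have hs4 : 0 < s ^ 4 := by positivity
  have hs41 : s ^ 4 ≤ 1 / 10 := by
    calc s ^ 4 ≤ (1 / 10) ^ 4 := by gcongr
      _ ≤ 1 / 10 := by norm_num
  have hs9 : s ^ 9 ≤ s₁ := by
    calc s ^ 9 = s ^ 8 * s := by ring
      _ ≤ 1 * s := mul_le_mul_of_nonneg_right (pow_le_one₀ hs.le hs1') hs.le
      _ ≤ s₁ := by linarith
  have hs9p : 0 < s ^ 9 := by positivity
  have j0 : (1 + C) * s ^ 9 < r₂ := lt_of_le_of_lt (mul_le_mul_of_nonneg_left hs9 (by positivity)) k0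
  have j1 : s ^ 9 < ε₀ := lt_of_le_of_lt hs9 k1
  have j2 : C * (1 + C) * s ^ 9 < 1 / 100 :=
    lt_of_le_of_lt (mul_le_mul_of_nonneg_left hs9 (by positivity)) k2
  have hr20 : r₂ ≤ r₀ := hr21.trans hr10
  have hsm : s ^ 9 < r₂ := lt_of_le_of_lt (le_mul_of_one_le_left hs9p.le (by linarith)) j0
  have hCC : C * (s ^ 9 + C * s ^ 9) < 1 / 100 := by
    have e : C * (s ^ 9 + C * s ^ 9) = C * (1 + C) * s ^ 9 := by ring
    rw [e]
    exact j2
  have hCs : s ^ 9 + C * s ^ 9 < r₂ := by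
    have e : s ^ 9 + C * s ^ 9 = (1 + C) * s ^ 9 := by ring
    rw [e]
    exact j0
  -- h at p and at points of the ball
  have hp0 : h p = 0 := (H.zero p (mem_ball_self H.r0)).1 H.hp
  have hlip : ∀ w ∈ ball p r₀, h w ≤ C * ‖w - p‖ := by
    intro w hw
    have := H.lip w hw p (mem_ball_self H.r0)
    rw [hp0, sub_zero] at this
    exact (le_abs_self _).trans this
  have hfball : ∀ x, ‖x‖ ≤ 1 - s ^ 4 / 2 → f x ∈ ball p r₀ := by
    intro x hx
    rw [mem_ball_iff_norm]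
    linarith [hfx x hx]
  have hfpos : ∀ x, ‖x‖ ≤ 1 - s ^ 4 / 2 → 0 < h (f x) := by
    intro x hx
    rw [← H.sign _ (hfball x hx)]
    have h3 : f x ∈ Ω := hfr.hfm (by
      rw [mem_ball_zero_iff]
      linarith)
    rw [hdat.eq] at h3
    exact h3
  -- the minimum
  have hcont : ContinuousOn (fun x => h (f x)) (closedBall (0 : V n) (3 / 5)) := by
    apply H.smooth.continuousOn.comp (hfr.hf.continuousOn.mono _)
    · intro x hx
      rw [mem_closedBall_zero_iff] at hx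
      exact hfball x (by linarith)
    · exact closedBall_subset_ball (by norm_num)
  obtain ⟨x₀, hx₀, hmin⟩ := (isCompact_closedBall (0 : V n) (3 / 5)).exists_isMinOn
    ⟨0, by rw [mem_closedBall_zero_iff, norm_zero]; norm_num⟩ hcont
  rw [mem_closedBall_zero_iff] at hx₀
  set β : ℝ := h (f x₀) with hβdef
  have hβ : 0 < β := hfpos x₀ (by linarith)
  have hβm : ∀ x, ‖x‖ ≤ 3 / 5 → β ≤ h (f x) := fun x hx =>
    hmin (by rw [mem_closedBall_zero_iff]; exact hx)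
  have hβz : β ≤ h z := by
    have := hβm 0 (by rw [norm_zero]; norm_num)
    rwa [hfr.base] at this
  have hz9 : ‖z - p‖ ≤ s ^ 9 := by
    have := hfx 0 (by rw [norm_zero]; linarith)
    rwa [hfr.base] at this
  have hzball : z ∈ ball p r₀ := by
    rw [mem_ball_iff_norm]
    linarith
  have hhz : h z ≤ C * s ^ 9 := (hlip z hzball).trans (mul_le_mul_of_nonneg_left hz9 hC.le)
  have hβ9 : β ≤ C * s ^ 9 := hβz.trans hhz
  -- Harnack
  obtain ⟨HA, HB⟩ := harnack H hdat.eq hr20 hc WH hfr hs hs10 hsm hfx hβ hβm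
  rw [← hc2] at HA
  rw [← hc'] at HB
  -- vertical discs
  have hvert : ∀ x, ‖x‖ ≤ 9 / 10 → ∀ t : ℂ, ‖t‖ < c2 / 2 * β → f x + t • ν ∈ Ω := by
    intro x hx t ht
    have hx9 := hfx x (by linarith)
    have hx9p := norm_nonneg (f x - p)
    have ht1 : ‖t‖ ≤ C * s ^ 9 := by
      have e : c2 / 2 * β ≤ β := mul_le_of_le_one_left hβ.le (by linarith)
      exact ht.le.trans (e.trans hβ9)
    have htn := norm_nonneg t
    obtain ⟨m1, m2⟩ := shift_ge H (w := f x) (t := t) (by linarith)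
    have m3 := HA x hx
    have m4 : C * (‖f x - p‖ + ‖t‖) ≤ 1 := by
      have : C * (‖f x - p‖ + ‖t‖) ≤ C * (s ^ 9 + C * s ^ 9) :=
        mul_le_mul_of_nonneg_left (by linarith) hC.le
      linarith
    have m5 : ‖t‖ * (1 + C * (‖f x - p‖ + ‖t‖)) ≤ ‖t‖ * 2 :=
      mul_le_mul_of_nonneg_left (by linarith) htn
    have m6 : 0 < h (f x + t • ν) := by linarith
    have m7 := (H.sign _ m1).2 m6
    rw [hdat.eq]
    exact m7
  have hc2β : 0 < c2 / 2 * β := by positivity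
  have hline : ∀ x, ‖x‖ ≤ 9 / 10 → ‖fderiv ℂ F (f x) ν‖ ≤ 1 / (c2 / 2 * β) ∧
      ∀ t : ℂ, ‖t‖ ≤ 9 / 10 * (c2 / 2 * β) →
        ‖F (f x + t • ν) - x - t • fderiv ℂ F (f x) ν‖ ≤ 4 * (‖t‖ / (c2 / 2 * β)) ^ 2 := by
    intro x hx
    have := line_facts hΩo hfr.hF hfr.hFm hc2β (hvert x hx)
    rw [hfr.left x (by rw [mem_ball_zero_iff]; linarith)] at this
    exact this
  -- the near isometries
  set β' : ℝ := c2 / 4 * β with hβ'
  have hβ'p : 0 < β' := by positivity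
  have hβ'1 : β' ≤ β := mul_le_of_le_one_left hβ.le (by linarith)
  have hβ'2 : β' = c2 / 2 * β / 2 := by
    rw [hβ']
    ring
  have hhor : ∀ x, ‖x‖ ≤ 1 - s ^ 4 → ∀ σ : ℝ, |σ| = s * β' →
      f x + (Complex.I * (σ : ℂ)) • ν ∈ Ω := by
    intro x hx σ hσ
    have hx9 := hfx x (by linarith)
    have hx9p := norm_nonneg (f x - p)
    have hσ1 : |σ| ≤ C * s ^ 9 := by
      rw [hσ]
      calc s * β' ≤ 1 * β' := mul_le_mul_of_nonneg_right hs1' hβ'p.le
        _ = β' := one_mul _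
        _ ≤ C * s ^ 9 := hβ'1.trans hβ9
    obtain ⟨m1, m2⟩ := ishift_ge H (w := f x) (s := σ) (by linarith)
    have m3 := HB x hx
    have m4 : C * |σ| * (‖f x - p‖ + |σ|) < c' * s ^ 8 * β := by
      have e1 : C * |σ| * (‖f x - p‖ + |σ|) ≤ C * (s * β) * (s ^ 9 + C * s ^ 9) := by
        apply mul_le_mul
        · apply mul_le_mul_of_nonneg_left _ hC.le
          rw [hσ]
          exact mul_le_mul_of_nonneg_left hβ'1 hs.le
        · linarith
        · positivity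
        · positivity
      have e2 : C * (s * β) * (s ^ 9 + C * s ^ 9) = (C * (1 + C) * s) * (s * s ^ 8 * β) := by ring
      have e3 : C * (1 + C) * s < c' := by
        have : C * (1 + C) * s ≤ C * (1 + C) * s₁ := mul_le_mul_of_nonneg_left hss (by positivity)
        linarith
      have e4 : (C * (1 + C) * s) * (s * s ^ 8 * β) < c' * (s * s ^ 8 * β) :=
        mul_lt_mul_of_pos_right e3 (by positivity)
      have e5 : c' * (s * s ^ 8 * β) ≤ c' * (1 * s ^ 8 * β) := by gcongr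
      linarith
    have m6 : 0 < h (f x + (Complex.I * (σ : ℂ)) • ν) := by linarith
    have m7 := (H.sign _ m1).2 m6
    rw [hdat.eq]
    exact m7
  have hsβ : |s * β'| = s * β' := abs_of_pos (by positivity)
  have hsβn : |-(s * β')| = s * β' := by rw [abs_neg]; exact hsβ
  set Gp : V n → V n := fun x => F (f x + (Complex.I * ((s * β' : ℝ) : ℂ)) • ν) with hGp
  set Gm : V n → V n := fun x => F (f x + (Complex.I * ((-(s * β') : ℝ) : ℂ)) • ν) with hGm
  have hball1 : ball (0 : V n) (1 - s ^ 4) ⊆ ball 0 1 := ball_subset_ball (by linarith)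
  have hdiff : ∀ σ : ℝ, |σ| = s * β' →
      DifferentiableOn ℂ (fun x => F (f x + (Complex.I * (σ : ℂ)) • ν)) (ball 0 (1 - s ^ 4)) := by
    intro σ hσ
    apply hfr.hF.comp ((hfr.hf.mono hball1).add_const _)
    intro x hx
    rw [mem_ball_zero_iff] at hx
    exact hhor x hx.le σ hσ
  have hmaps : ∀ σ : ℝ, |σ| = s * β' →
      MapsTo (fun x => F (f x + (Complex.I * (σ : ℂ)) • ν)) (ball 0 (1 - s ^ 4)) (ball 0 1) := by
    intro σ hσ x hx
    rw [mem_ball_zero_iff] at hx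
    exact hfr.hFm (hhor x hx.le σ hσ)
  have hinv : ∀ σ : ℝ, |σ| = s * β' → ∀ x, ‖x‖ < 1 - s ^ 4 →
      F (f (F (f x + (Complex.I * (σ : ℂ)) • ν)) + (Complex.I * ((-σ : ℝ) : ℂ)) • ν) = x := by
    intro σ hσ x hx
    rw [hfr.right _ (hhor x hx.le σ hσ), add_assoc, ← add_smul]
    have : Complex.I * (σ : ℂ) + Complex.I * ((-σ : ℝ) : ℂ) = 0 := by
      push_cast
      ring
    rw [this, zero_smul, add_zero]
    exact hfr.left x (by rw [mem_ball_zero_iff]; linarith)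
  have htay : ∀ σ : ℝ, |σ| = s * β' → ∀ x, ‖x‖ ≤ 9 / 10 →
      ‖F (f x + (Complex.I * (σ : ℂ)) • ν) - x - (Complex.I * (σ : ℂ)) • fderiv ℂ F (f x) ν‖
        ≤ 2 * s ^ 2 := by
    intro σ hσ x hx
    have hn : ‖Complex.I * (σ : ℂ)‖ = s * β' := by
      rw [norm_mul, Complex.norm_I, Complex.norm_real, Real.norm_eq_abs, one_mul, hσ]
    have e1 := (hline x hx).2 (Complex.I * (σ : ℂ)) (by
      rw [hn]
      calc s * β' ≤ 1 * β' := mul_le_mul_of_nonneg_right hs1' hβ'p.le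
        _ ≤ 9 / 10 * (c2 / 2 * β) := by linarith)
    refine e1.trans ?_
    rw [hn]
    have e2 : s * β' / (c2 / 2 * β) = s / 2 := by
      rw [hβ']
      field_simp
      norm_num
    rw [e2]
    have e3 : 4 * (s / 2) ^ 2 = s ^ 2 := by ring
    have e4 := sq_nonneg s
    linarith
  obtain ⟨b, A, hA, hqf⟩ := hnk s β' hs (hss.trans hs1b) hβ'p (fun x => fderiv ℂ F (f x) ν) Gp Gm
    (hdiff _ hsβ) (hdiff _ hsβn) (hmaps _ hsβ) (hmaps _ hsβn)
    (fun x hx _ => hinv _ hsβ x hx)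
    (fun x hx _ => by
      have := hinv _ hsβn x hx
      rw [neg_neg] at this
      exact this)
    (fun x hx => htay _ hsβ x hx)
    (fun x hx => by
      have := htay _ hsβn x hx
      have e : Gm x - x + (Complex.I * ((s * β' : ℝ) : ℂ)) • fderiv ℂ F (f x) ν =
          Gm x - x - (Complex.I * ((-(s * β') : ℝ) : ℂ)) • fderiv ℂ F (f x) ν := by
        have : (Complex.I * ((-(s * β') : ℝ) : ℂ)) = -(Complex.I * ((s * β' : ℝ) : ℂ)) := by
          push_cast
          ring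
        rw [this, neg_smul, sub_neg_eq_add]
      rw [e]
      exact this)
    (fun x hx => by
      refine ((hline x hx).1).trans ?_
      apply one_div_le_one_div_of_le hβ'p
      linarith)
  have hC2 : Cn * s / β' = Cn * 4 / c2 * s / β := by
    rw [hβ']
    field_simp
  refine ⟨β, b, A, hβ, hβz, ⟨x₀, hx₀, rfl⟩, hβm, HA, ?_, hA, ?_, ?_, ?_⟩
  · intro x hx
    refine ((hline x hx).1).trans ?_
    have e1 : 1 / (c2 / 2 * β) = 2 / c2 / β := by field_simp
    rw [e1]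
    apply div_le_div_of_nonneg_right _ hβ.le
    have : 0 < Cn * 4 / c2 := by positivity
    linarith
  · intro x hx
    refine (hqf x hx).trans ?_
    rw [hC2]
    apply div_le_div_of_nonneg_right _ hβ.le
    apply mul_le_mul_of_nonneg_right _ hs.le
    have : 0 < 2 / c2 := by positivity
    linarith
  · have hL := hbet f F z hfr (fun x hx => (hfx x (by linarith)).trans_lt j1)
      (2 * ‖b‖ + ‖A‖ + Cn * s / β') (by positivity) (fun x hx => by
        have e1 := hqf x hx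
        have e2 := qf_le b A (x := x) (by linarith)
        have e3 : fderiv ℂ F (f x) ν = (fderiv ℂ F (f x) ν - qf b A x) + qf b A x := by abel
        rw [e3]
        refine (norm_add_le _ _).trans ?_
        linarith) x₀ hx₀
    rw [← hβdef, hC2] at hL
    have e1 : Cn * 4 / c2 * s / β * β = Cn * 4 / c2 * s := by field_simp
    have e2 : Cn * 4 / c2 * s < 1 / 10 := by
      have : Cn * 4 / c2 * s ≤ Cn * 4 / c2 * s₁ := mul_le_mul_of_nonneg_left hss (by positivity)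
      linarith
    have e3 : (2 * ‖b‖ + ‖A‖ + Cn * 4 / c2 * s / β) * β = β * (2 * ‖b‖ + ‖A‖) +
        Cn * 4 / c2 * s / β * β := by ring
    rw [e3, e1] at hL
    linarith
  · intro t ht
    have htn := norm_nonneg t
    have hzp := norm_nonneg (z - p)
    have hhz0 : 0 < h z := hβ.trans_le hβz
    have ht1 : ‖t‖ ≤ C * s ^ 9 := by linarith
    obtain ⟨m1, m2⟩ := shift_ge H (w := z) (t := t) (by linarith)
    have m4 : C * (‖z - p‖ + ‖t‖) ≤ 1 / 100 := by
      have : C * (‖z - p‖ + ‖t‖) ≤ C * (s ^ 9 + C * s ^ 9) :=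
        mul_le_mul_of_nonneg_left (by linarith) hC.le
      linarith
    have m5 : ‖t‖ * (1 + C * (‖z - p‖ + ‖t‖)) ≤ ‖t‖ * (101 / 100) :=
      mul_le_mul_of_nonneg_left (by linarith) htn
    have m6 : 0 < h (z + t • ν) := by linarith
    have m7 := (H.sign _ m1).2 m6
    rw [hdat.eq]
    exact m7

end Pool.Agent.W505.SB
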